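import Pool.Agent.Helper65.UT.Base

set_option autoImplicit false

open NumberField IsLocalRing Matrix Module

open scoped Pointwise

namespace Pool.Agent.Helper65.UT

/-- The primes of `L` above a finite set of primes of `K` are finite in number, at most `[L : K]` above
each of them. -/
theorem ncard_above (K L : Type) [Field K] [NumberField K] [Field L] [NumberField L] [Algebra K L]
    (S : Finset (Ideal (𝓞 K))) (hS : ∀ P ∈ S, P.IsMaximal) :
    {q : Ideal (𝓞 L) | q.IsMaximal ∧ q.comap (algebraMap (𝓞 K) (𝓞 L)) ∈ S}.Finite ∧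
    {q : Ideal (𝓞 L) | q.IsMaximal ∧ q.comap (algebraMap (𝓞 K) (𝓞 L)) ∈ S}.ncard ≤
      S.card * finrank K L := by
  classical
  have hfd : FiniteDimensional K L := FiniteDimensional.right ℚ K L
  have hsub : {q : Ideal (𝓞 L) | q.IsMaximal ∧ q.comap (algebraMap (𝓞 K) (𝓞 L)) ∈ S} ⊆
      ((S.biUnion fun P => IsDedekindDomain.primesOverFinset P (𝓞 L) : Finset (Ideal (𝓞 L))) :
        Set (Ideal (𝓞 L))) := by
    rintro q ⟨hq, hqS⟩
    have hmax := hS _ hqS
    have h0 : q.comap (algebraMap (𝓞 K) (𝓞 L)) ≠ ⊥ :=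
      Ring.ne_bot_of_isMaximal_of_not_isField hmax (RingOfIntegers.not_isField K)
    simp only [Finset.coe_biUnion, Set.mem_iUnion, Finset.mem_coe]
    exact ⟨_, hqS, (IsDedekindDomain.mem_primesOverFinset_iff h0 _).mpr
      ⟨hq.isPrime, ⟨rfl⟩⟩⟩
  refine ⟨(Finset.finite_toSet _).subset hsub, ?_⟩
  refine (Set.ncard_le_ncard hsub (Finset.finite_toSet _)).trans ?_
  rw [Set.ncard_coe_finset]
  refine Finset.card_biUnion_le.trans ?_
  refine (Finset.sum_le_card_nsmul S _ (finrank K L) fun P hP => ?_).trans (le_of_eq (by simp))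
  have hmax := hS P hP
  have h0 : P ≠ ⊥ := Ring.ne_bot_of_isMaximal_of_not_isField hmax (RingOfIntegers.not_isField K)
  have h1 := Ideal.sum_ramification_inertia (𝓞 L) K L h0
  rw [← h1, Finset.card_eq_sum_ones]
  refine Finset.sum_le_sum fun Q hQ ↦ ?_
  have : Q.IsPrime := ((IsDedekindDomain.mem_primesOverFinset_iff h0 _).mp hQ).1
  have : Q.LiesOver P := ((IsDedekindDomain.mem_primesOverFinset_iff h0 _).mp hQ).2
  refine Right.one_le_mul ?_ ?_
  · exact Nat.pos_iff_ne_zero.mpr <| Ideal.IsDedekindDomain.ramificationIdx'_ne_zero_of_liesOver _ h0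
  · exact Nat.pos_iff_ne_zero.mpr <| Ideal.inertiaDeg'_ne_zero P Q

/-- the unit rank -/
theorem rank_split (K F : Type) [Field K] [NumberField K] [Field F] [NumberField F] [Algebra K F]
    [IsGalois K F] [IsUnramifiedAtInfinitePlaces K F] :
    Units.rank F + 1 = finrank K F * (Units.rank K + 1) := by
  have h1 := IsUnramifiedAtInfinitePlaces.card_infinitePlace K F
  have h2 : 0 < Fintype.card (InfinitePlace K) := Fintype.card_pos
  have h3 : 0 < Fintype.card (InfinitePlace F) := Fintype.card_pos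
  unfold Units.rank
  rw [Nat.sub_add_cancel h3, Nat.sub_add_cancel h2, h1, mul_comm]

/-- two embeddings of a normal extension have the same image -/
theorem range_eq {K M Ω : Type} [Field K] [Field M] [Field Ω] [Algebra K M] [Algebra K Ω]
    [Normal K M] (i j : M →ₐ[K] Ω) (x : M) : ∃ y : M, i x = j y := by
  let e : M ≃ₐ[K] j.fieldRange := AlgEquiv.ofInjectiveField j
  have hn : Normal K j.fieldRange := Normal.of_algEquiv e
  have h1 : (i.comp (e.symm : j.fieldRange →ₐ[K] M)).fieldRange = j.fieldRange :=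
    AlgHom.fieldRange_of_normal _
  have h2 : i x ∈ (i.comp (e.symm : j.fieldRange →ₐ[K] M)).fieldRange :=
    ⟨e x, by simp⟩
  rw [h1] at h2
  obtain ⟨y, hy⟩ := h2
  exact ⟨y, hy.symm⟩

end Pool.Agent.Helper65.UT
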