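import Pool.Agent.Helper65.UT.Crisp

/-!
# Unramified representations of number fields with infinite class field towers

For every dimension `n` there is a power `c` of `2` such that for every number field `K`, every `M₀`
which is `K` or a finite Galois extension of `K` in which two infinite places of `K` split completely, every
large prime number `p` congruent to `1` modulo `c` and every finite set `B` of primes of `K` there is a
number field `N` containing `K`, of degree `c p ^ 2` over `K`, in which some prime of `K` outside `B` is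
ramified, with the following properties. The `p`-class field tower of `N` is infinite, by the theorem of
Golod and Shafarevich (`InfiniteTower`). All continuous everywhere unramified homomorphisms
`ρ : G_N → GL_m(A)`, `m ≤ n`, for all complete Noetherian local rings `A` with finite residue field of
characteristic `p`, have finite image, if the residual representation becomes projectively a `p`-group over
the compositum of `N` and `M₀`, and is arbitrary otherwise.

This is the crisp form of the theorem in `Helper65/UT/Base.lean`, which says more. The idea of the proof of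
that theorem is explained there.
-/

set_option autoImplicit false

open NumberField IsLocalRing Matrix

open scoped Pointwise

namespace Pool.Agent.Helper65.UTF

/-- The absolute Galois group of the field `K`. -/
abbrev G (K : Type) [Field K] : Type := AlgebraicClosure K ≃ₐ[K] AlgebraicClosure K

/-- The homomorphism `ρ` is unramified everywhere: no prime ramifies in the number fields `F`
containing `K` which are embedded over `K` into the fixed field of the kernel of `ρ`. -/
def Unramified (K : Type) [Field K] [NumberField K] {H : Type} [Group H] (ρ : G K →* H) : Prop :=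
  ∀ (F : Type) [Field F] [NumberField F] [Algebra K F] (ι : F →ₐ[K] AlgebraicClosure K),
    ι.fieldRange ≤ IntermediateField.fixedField ρ.ker →
    ∀ P : Ideal (𝓞 F), P.IsMaximal →
      ¬ (P.comap (algebraMap (𝓞 K) (𝓞 F))).map (algebraMap (𝓞 K) (𝓞 F)) ≤ P ^ 2

/-- The residual representation: the reduction of `ρ` modulo the maximal ideal. -/
noncomputable def residual {Γ A : Type} [Group Γ] [CommRing A] [IsLocalRing A] {n : ℕ}
    (ρ : Γ →* GL (Fin n) A) : Γ →* GL (Fin n) (ResidueField A) :=
  (Matrix.GeneralLinearGroup.map (residue A)).comp ρ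

/-- For all `g` in the absolute Galois group of the compositum of `N` and `M₀` the image of `τ g` in
`PGL_n(k)` has order a power of `p`. -/
def ProjectivelyP (p : ℕ) {K : Type} [Field K] (M₀ : IntermediateField K (AlgebraicClosure K))
    {N : Type} [Field N] [Algebra K N] {k : Type} [Field k] {n : ℕ} (τ : G N →* GL (Fin n) k) :
    Prop :=
  ∀ g : G N, (∀ (ι : M₀ →ₐ[K] AlgebraicClosure N) (x : M₀), g (ι x) = ι x) →
    ∃ (j : ℕ) (a : k), ((τ g ^ p ^ j : GL (Fin n) k) : Matrix (Fin n) (Fin n) k) = a • 1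

/-- The homomorphism `ψ` to the group of order `p` is continuous and unramified outside `T`: its kernel
is open and it is trivial on the inertia groups of all maximal ideals `Q` of the ring of all algebraic
integers which lie above a prime outside `T`. -/
def UnramifiedOutside (p : ℕ) {L : Type} [Field L] [NumberField L] (T : Set (Ideal (𝓞 L)))
    (ψ : G L →* Multiplicative (ZMod p)) : Prop :=
  IsOpen (ψ.ker : Set (G L)) ∧ ∀ Q : Ideal (𝓞 (AlgebraicClosure L)), Q.IsMaximal →
    Q.comap (algebraMap (𝓞 L) (𝓞 (AlgebraicClosure L))) ∉ T → ∀ γ ∈ Q.inertia (G L), ψ γ = 1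

/-- The number field `N` is a Galois extension of degree `p` of a number field `L`, totally ramified at
the primes in a finite nonempty set `T` of primes of `L` not above `p` and unramified outside `T`; there are
`p ^ d` homomorphisms `G_L → ℤ/p` unramified outside `T`, and `1 - d t + (d + r) t ^ 2 + |T| t ^ p < 0` for
the rank `r` of the group of units of `L` and some `t` between `0` and `1`. By Shafarevich and Koch the
Galois group of the maximal `p`-extension of `L` unramified outside `T` with inertia groups of order at most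
`p` has `d` generators, `d + r` relations and `|T|` further relations which are `p`-th powers. By Golod
and Shafarevich it is infinite, and its subgroup which belongs to `N` is the Galois group of the `p`-class
field tower of `N`. -/
def InfiniteTower (p : ℕ) (N : Type) [Field N] [NumberField N] : Prop :=
  ∃ (L : Type) (_ : Field L) (_ : NumberField L) (_ : Algebra L N) (T : Set (Ideal (𝓞 L)))
    (d : ℕ) (t : ℝ), IsGalois L N ∧ Module.finrank L N = p ∧ T.Finite ∧ T.Nonempty ∧
    (∀ q ∈ T, q.IsMaximal ∧ (p : 𝓞 L) ∉ q) ∧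
    (∀ P : Ideal (𝓞 N), P.IsMaximal → ∀ q : Ideal (𝓞 L), P.comap (algebraMap (𝓞 L) (𝓞 N)) = q →
      (q ∈ T → q.map (algebraMap (𝓞 L) (𝓞 N)) ≤ P ^ p) ∧
      (q ∉ T → ¬ q.map (algebraMap (𝓞 L) (𝓞 N)) ≤ P ^ 2)) ∧
    Nat.card {ψ : G L →* Multiplicative (ZMod p) // UnramifiedOutside p T ψ} = p ^ d ∧
    0 < t ∧ t < 1 ∧ 1 - d * t + (d + Units.rank L) * t ^ 2 + T.ncard * t ^ p < 0

/-- Some prime of `K` outside `B` is ramified in `N`. -/
def RamifiedOutside {K : Type} [Field K] (B : Set (Ideal (𝓞 K))) (N : Type) [Field N]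
    [Algebra K N] : Prop :=
  ∃ P : Ideal (𝓞 K), P ∉ B ∧ P.IsMaximal ∧ ∃ Q : Ideal (𝓞 N), Q.IsMaximal ∧
    P.map (algebraMap (𝓞 K) (𝓞 N)) ≤ Q ^ 2

/-- The field `M₀` is a Galois extension of `K`, and `M₀` is `K` or there are two infinite places of `K`
which split completely in `M₀`. -/
def TwoSplit (K : Type) [Field K] [NumberField K] (M₀ : IntermediateField K (AlgebraicClosure K))
    [NumberField M₀] : Prop :=
  IsGalois K M₀ ∧ (M₀ = ⊥ ∨ ∃ v₁ v₂ : InfinitePlace K, v₁ ≠ v₂ ∧ ∀ w : InfinitePlace M₀,
    w.comap (algebraMap K M₀) = v₁ ∨ w.comap (algebraMap K M₀) = v₂ → w.IsUnramified K)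

/-- the two definitions -/
theorem tameAt_of {K : Type} [Field K] [NumberField K] {H : Type} [Group H] {ρ : G K →* H}
    (h : Unramified K ρ) : UT.TameAt K ∅ ρ := by
  intro F _ _ _ ι hι P hP q hq e he he'
  subst hq
  refine ⟨fun _ => ?_, fun h1 => absurd h1 (Set.notMem_empty _)⟩
  have h1 := h F ι hι P hP
  rcases Nat.lt_trichotomy e 1 with h2 | h2 | h2
  · exfalso
    have h3 : e = 0 := by omega
    subst h3
    exact he' (by rw [zero_add, pow_one]; exact Ideal.map_comap_le)
  · exact h2
  · exact absurd (he.trans (Ideal.pow_le_pow_right h2)) h1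

theorem main (n : ℕ) : ∃ c : ℕ, 0 < c ∧ ∀ (K : Type) [Field K] [NumberField K]
    (M₀ : IntermediateField K (AlgebraicClosure K)) [NumberField M₀], TwoSplit K M₀ →
    ∃ p₀ : ℕ, ∀ (p : ℕ) [Fact p.Prime], p₀ < p → p ≡ 1 [MOD c] →
    ∀ B : Set (Ideal (𝓞 K)), B.Finite →
    ∃ (N : Type) (_ : Field N) (_ : NumberField N) (_ : Algebra K N),
      Module.finrank K N = c * p ^ 2 ∧ RamifiedOutside B N ∧ InfiniteTower p N ∧
      ∀ (A : Type) [CommRing A] [IsLocalRing A] [IsNoetherianRing A] [TopologicalSpace A]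
      [CharP (ResidueField A) p] [Finite (ResidueField A)] [IsAdicComplete (maximalIdeal A) A],
      IsAdic (maximalIdeal A) → ∀ m ≤ n, ∀ ρ : G N →* GL (Fin m) A, Continuous ρ →
        Unramified N ρ → ProjectivelyP p M₀ (residual ρ) → (Set.range ρ).Finite := by
  refine ⟨2 ^ (n + 1), by positivity, fun K _ _ M₀ _ hM₀ => ?_⟩
  have hn : 2 * n ≤ 2 ^ (n + 1) := by
    have := (Nat.lt_two_pow_self (n := n)).le
    rw [pow_succ]
    omega
  obtain ⟨F, hnF, hF, hd⟩ := UT.exists_field K M₀ (n + 1)
  have hFK : FiniteDimensional K F := FiniteDimensional.right ℚ K F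
  have hgF := hF.galois
  have hiF := hF.infinite
  have hrF : Units.rank F + 1 = 2 ^ (n + 1) * (Units.rank K + 1) := by
    rw [UT.rank_split K F, hF.degree]
  obtain ⟨N₀, hN₀⟩ := UT.base K n (n + 1) (by omega) hn M₀ F ⟨hM₀.1, hM₀.2⟩ hF hd
  refine ⟨max N₀ (16 * 2 ^ (n + 1) * (Units.rank K + 1) + 4 * 2 ^ (n + 1) + 6),
    fun p hpf hp hpc B hB => ?_⟩
  have hpp : p.Prime := hpf.out
  have hp1 : N₀ < p := lt_of_le_of_lt (le_max_left _ _) hp
  have hp2 : 16 * 2 ^ (n + 1) * (Units.rank K + 1) + 4 * 2 ^ (n + 1) + 6 ≤ p :=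
    (lt_of_le_of_lt (le_max_right _ _) hp).le
  obtain ⟨δ, h3, hδ1, hδ2, -, t, ht0, ht1, hgs⟩ :=
    UT.golod (r := Units.rank K) (c := 2 ^ (n + 1)) Nat.one_le_two_pow hp2
  obtain ⟨S, L, _, _, _, _, N, _, _, _, _, E, _, _, _, _, _, hSB, hS, hL, hKLN, hN, hE, hfin⟩ :=
    hN₀ p hp1 hpc δ h3 hδ1 hδ2 B hB
  have hKFL := hL.tower
  have hLd := hL.degree
  have hNd := hN.degree
  have hgLN := hN.galois
  have hdL : Module.finrank K L = 2 ^ (n + 1) * p := by
    rw [← Module.finrank_mul_finrank K F L, hF.degree, hLd]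
  have hne : ∃ P, P ∈ S := by
    have h4 : 0 < S.card := by rw [hS.card_eq]; norm_num
    exact Finset.card_pos.mp h4
  obtain ⟨hTf, hTc⟩ := UT.ncard_above K L S hS.maximal
  obtain ⟨P₁, hP₁⟩ := hne
  have hP₁m := hS.maximal P₁ hP₁
  refine ⟨N, inferInstance, inferInstance, inferInstance, ?_, ?_, ?_, ?_⟩
  · rw [← Module.finrank_mul_finrank K L N, hdL, hNd]
    ring
  · obtain ⟨Q, hQ, hQP⟩ := Ideal.exists_maximal_ideal_liesOver_of_isIntegral P₁ (S := 𝓞 N)
    refine ⟨P₁, hSB P₁ hP₁, hP₁m, Q, hQ, ?_⟩
    have h5 : P₁ = Q.comap (algebraMap (𝓞 K) (𝓞 N)) := hQP.over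
    have h6 : algebraMap (𝓞 K) (𝓞 N) =
        (algebraMap (𝓞 L) (𝓞 N)).comp (algebraMap (𝓞 K) (𝓞 L)) := by
      ext x
      exact IsScalarTower.algebraMap_apply K L N (x : K)
    have h7 : (Q.comap (algebraMap (𝓞 L) (𝓞 N))).comap (algebraMap (𝓞 K) (𝓞 L)) = P₁ := by
      rw [Ideal.comap_comap, ← h6, ← h5]
    have h8 := hN.ramified Q hQ _ rfl (by rw [h7]; exact hP₁)
    rw [h6, ← Ideal.map_map]
    have h9 : P₁.map (algebraMap (𝓞 K) (𝓞 L)) ≤ Q.comap (algebraMap (𝓞 L) (𝓞 N)) := by
      rw [← h7]
      exact Ideal.map_comap_le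
    exact (Ideal.map_mono h9).trans (h8.trans (Ideal.pow_le_pow_right hpp.two_le))
  · refine ⟨L, inferInstance, inferInstance, inferInstance,
      {q : Ideal (𝓞 L) | q.IsMaximal ∧ q.comap (algebraMap (𝓞 K) (𝓞 L)) ∈ S}, δ + 1, t, hgLN, hNd,
      hTf, ?_, ?_, ?_, ?_, ht0, ht1, ?_⟩
    · obtain ⟨Q, hQ, hQP⟩ := Ideal.exists_maximal_ideal_liesOver_of_isIntegral P₁ (S := 𝓞 L)
      refine ⟨Q, hQ, ?_⟩
      rw [show Q.comap (algebraMap (𝓞 K) (𝓞 L)) = P₁ from hQP.over.symm]
      exact hP₁
    · rintro q ⟨hq, hqS⟩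
      refine ⟨hq, fun hpq => ?_⟩
      set P := q.comap (algebraMap (𝓞 K) (𝓞 L)) with hP
      have hmax : P.IsMaximal := hS.maximal P hqS
      have hpP : (p : 𝓞 K) ∈ P := by
        rw [hP, Ideal.mem_comap, map_natCast]
        exact hpq
      have hprime := hS.prime P hqS
      have hdvd := hS.dvd P hqS
      have hfq : Finite (𝓞 K ⧸ P) := Nat.finite_of_card_ne_zero hprime.ne_zero
      have hmem : ((Nat.card (𝓞 K ⧸ P) : ℕ) : 𝓞 K) ∈ P := by
        have hft : Fintype (𝓞 K ⧸ P) := Fintype.ofFinite _
        rw [← Ideal.Quotient.eq_zero_iff_mem, map_natCast, Nat.card_eq_fintype_card]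
        exact Nat.cast_card_eq_zero (𝓞 K ⧸ P)
      have hcop : Nat.Coprime p (Nat.card (𝓞 K ⧸ P)) := by
        rw [Nat.coprime_primes hpp hprime]
        rintro h10
        rw [← h10] at hdvd
        have h11 : p ∣ p ^ 2 ^ (n + 1) := dvd_pow_self p (by positivity)
        have h12 : 1 ≤ p ^ 2 ^ (n + 1) := Nat.one_le_pow _ _ hpp.pos
        have h13 := (Nat.dvd_sub_iff_right h12 h11).mp hdvd
        exact hpp.one_lt.ne' (Nat.dvd_one.mp h13)
      apply hmax.ne_top
      rw [Ideal.eq_top_iff_one]
      have h14 := Nat.isCoprime_iff_coprime.mpr hcop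
      obtain ⟨a, b, hab⟩ := h14
      have h15 : ((a * (p : ℤ) + b * (Nat.card (𝓞 K ⧸ P) : ℤ) : ℤ) : 𝓞 K) = 1 := by
        rw [hab]
        simp
      rw [← h15]
      push_cast
      exact P.add_mem (P.mul_mem_left _ hpP) (P.mul_mem_left _ hmem)
    · intro P hP q hq
      refine ⟨fun hqT => hN.ramified P hP q hq hqT.2, fun hqT => hN.unramified P hP q hq fun h10 => ?_⟩
      refine hqT ⟨?_, h10⟩
      rw [← hq]
      exact Ideal.isMaximal_comap_of_isIntegral_of_isMaximal P
    · rw [← hL.characters]
      refine Nat.card_congr (Equiv.subtypeEquivRight fun ψ => ?_)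
      refine and_congr Iff.rfl (forall_congr' fun Q => forall_congr' fun hQ => ?_)
      have h10 : (Q.comap (algebraMap (𝓞 L) (𝓞 (AlgebraicClosure L)))).IsMaximal :=
        Ideal.isMaximal_comap_of_isIntegral_of_isMaximal Q
      exact imp_congr (not_congr ⟨fun h11 => h11.2, fun h11 => ⟨h10, h11⟩⟩) Iff.rfl
    · have h10 : ((Units.rank L : ℕ) : ℝ) + 1 = p * (2 ^ (n + 1) * (Units.rank K + 1)) := by
        have h11 := hL.rank_eq
        rw [hrF] at h11
        exact_mod_cast h11
      have h12 : (({q : Ideal (𝓞 L) | q.IsMaximal ∧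
          q.comap (algebraMap (𝓞 K) (𝓞 L)) ∈ S}.ncard : ℕ) : ℝ) ≤ 3 * 2 ^ (n + 1) * p := by
        have h13 := hTc
        rw [hS.card_eq, hdL] at h13
        calc _ ≤ ((3 * (2 ^ (n + 1) * p) : ℕ) : ℝ) := by exact_mod_cast h13
          _ = _ := by push_cast; ring
      have h14 : 0 ≤ t ^ p := by positivity
      have h15 := mul_le_mul_of_nonneg_right h12 h14
      push_cast at hgs ⊢
      have h16 : (δ + 2 ^ (n + 1) * p * (Units.rank K + 1) : ℝ) = δ + 1 + Units.rank L := by
        linear_combination -h10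
      rw [h16] at hgs
      linarith
  · intro A _ _ _ _ _ _ _ hA m hm ρ hρ hU hP
    have hgNE := hE.galois
    have hNE : FiniteDimensional N E := FiniteDimensional.right ℚ N E
    let φ : E →ₐ[N] AlgebraicClosure N := IsAlgClosed.lift
    let aE : Algebra E (AlgebraicClosure N) := φ.toRingHom.toAlgebra
    have tE : IsScalarTower N E (AlgebraicClosure N) :=
      IsScalarTower.of_algebraMap_eq fun x => (φ.commutes x).symm
    have t1 := hE.tower
    have t2 := hE.tower'
    have hnor : Normal K M₀ := hM₀.1.to_normal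
    refine hfin A hA m hm N ∅ Set.finite_empty (fun P hP => absurd hP (Set.notMem_empty _)) ρ hρ
      (tameAt_of hU) fun g hg => ?_
    refine hP g fun ι x => ?_
    let j : M₀ →ₐ[K] AlgebraicClosure N :=
      { (algebraMap E (AlgebraicClosure N)).comp (algebraMap M₀ E) with
        commutes' := fun r => by
          change algebraMap E (AlgebraicClosure N) (algebraMap M₀ E (algebraMap K M₀ r)) = _
          rw [← IsScalarTower.algebraMap_apply K M₀ E, IsScalarTower.algebraMap_apply K N E,
            ← IsScalarTower.algebraMap_apply N E (AlgebraicClosure N),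
            ← IsScalarTower.algebraMap_apply K N (AlgebraicClosure N)] }
    obtain ⟨y, hy⟩ := UT.range_eq ι j x
    rw [hy]
    exact hg (algebraMap M₀ E y)

end Pool.Agent.Helper65.UTF
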