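import Pool.Agent.Helper65.UT.Fin

set_option autoImplicit false

open NumberField IsLocalRing Matrix

open scoped Pointwise

namespace Pool.Agent.Helper65.UTF

def InfTow (p : ℕ) (N : Type) [Field N] : Prop :=
  ∃ (L : Type) (_ : Field L) (_ : NumberField L) (_ : Algebra L N), IsGalois L N ∧
    Module.finrank L N = p ∧ ∃ (T : Set (Ideal (𝓞 L))) (d : ℕ) (t : ℝ),
    T.Finite ∧ T.Nonempty ∧ (∀ q ∈ T, q.IsMaximal ∧ (p : 𝓞 L) ∉ q) ∧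
    (∀ P : Ideal (𝓞 N), P.IsMaximal → ∀ q : Ideal (𝓞 L), P.comap (algebraMap (𝓞 L) (𝓞 N)) = q →
      (q ∈ T → q.map (algebraMap (𝓞 L) (𝓞 N)) ≤ P ^ p) ∧
      (q ∉ T → ¬ q.map (algebraMap (𝓞 L) (𝓞 N)) ≤ P ^ 2)) ∧
    Nat.card {ψ : G L →* Multiplicative (ZMod p) // UnramifiedOutside p T ψ} = p ^ d ∧
    0 < t ∧ t < 1 ∧ 1 - d * t + (d + Units.rank L) * t ^ 2 + T.ncard * t ^ p < 0

theorem main2 (n : ℕ) : ∃ c : ℕ, 0 < c ∧ ∀ (K : Type) [Field K] [NumberField K]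
    (M₀ : IntermediateField K (AlgebraicClosure K)) [NumberField M₀], TwoSplit K M₀ →
    ∃ p₀ : ℕ, ∀ (p : ℕ) [Fact p.Prime], p₀ < p → p ≡ 1 [MOD c] →
    ∀ B : Set (Ideal (𝓞 K)), B.Finite →
    ∃ (N : Type) (_ : Field N) (_ : NumberField N) (_ : Algebra K N),
      Module.finrank K N = c * p ^ 2 ∧ RamifiedOutside B N ∧ InfTow p N ∧
      ∀ (A : Type) [CommRing A] [IsLocalRing A] [IsNoetherianRing A] [TopologicalSpace A]
      [CharP (ResidueField A) p] [Finite (ResidueField A)] [IsAdicComplete (maximalIdeal A) A],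
      IsAdic (maximalIdeal A) → ∀ m ≤ n, ∀ ρ : G N →* GL (Fin m) A, Continuous ρ →
        Unramified N ρ → ProjectivelyP p M₀ (residual ρ) → (Set.range ρ).Finite := by
  obtain ⟨c, hc, h⟩ := main n
  refine ⟨c, hc, fun K _ _ M₀ _ hM => ?_⟩
  obtain ⟨p₀, h1⟩ := h K M₀ hM
  refine ⟨p₀, fun p _ hp hpc B hB => ?_⟩
  obtain ⟨N, i1, i2, i3, g1, g2, ⟨L, j1, j2, j3, T, d, t, g3, g4, g5⟩, g6⟩ := h1 p hp hpc B hB
  exact ⟨N, i1, i2, i3, g1, g2, ⟨L, j1, j2, j3, g3, g4, T, d, t, g5⟩, g6⟩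

end Pool.Agent.Helper65.UTF
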